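import Pool.Graph.R_pool_sql_team_seeded_47a924f7.Results.MP_163b0f_co.RationalSeparableClass

/-!
# The separable permutations are exhausted by finitely based rational classes of growth rate four

An earlier run found a finitely based class `C` between `Av(231)` and the separable permutations
with `(4 ^ n + 2) / 3` permutations of length `n + 1`.  Here: there is an increasing sequence
`C 0 ⊆ C 1 ⊆ …` of finitely based classes between `Av(231)` and the separable permutations, all with
a rational generating function, such that `C L` contains all separable permutations of length at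
most `L` and has exactly `(4 ^ n + 2) / 3` permutations of length `n + 1` for every `n ≥ L`; infinitely
many of the classes are different, none of them contains all separable permutations, and
every finite set of separable permutations lies in one of them.
-/

set_option autoImplicit false

namespace Pool.Agent.Results.MP_163b0f_co.Exhaustion

open Pool.Agent.T6.H99.RC PowerSeries

/-- the class of the separable permutations -/
abbrev Sep : PermClass := Av {⟨4, p2413⟩, ⟨4, p3142⟩}

theorem le_of_contains {n k : ℕ} {π : Equiv.Perm (Fin n)} {σ : Equiv.Perm (Fin k)}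
    (h : Contains π σ) : k ≤ n := by
  obtain ⟨f, hf, -⟩ := h
  simpa using Fintype.card_le_of_injective f hf.injective

/-- the union of a class with all separable permutations of length at most `L` -/
def up (C : PermClass) (L : ℕ) : PermClass where
  carrier n := {π | π ∈ C.carrier n ∨ (n ≤ L ∧ π ∈ Sep.carrier n)}
  down n k π σ hπ h := by
    rcases hπ with h1 | ⟨h1, h2⟩
    · exact Or.inl (C.down n k π σ h1 h)
    · exact Or.inr ⟨(le_of_contains h).trans h1, Sep.down n k π σ h2 h⟩

/-- finite bases -/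
theorem up_basis (B₁ : Finset (Σ k, Equiv.Perm (Fin k))) (L : ℕ) :
    ∃ B : Finset (Σ k, Equiv.Perm (Fin k)),
      up (Av (B₁ : Set (Σ k, Equiv.Perm (Fin k)))) L = Av (B : Set (Σ k, Equiv.Perm (Fin k))) := by
  classical
  obtain ⟨B, hB⟩ := Pool.Agent.T6.H99.RC.fb B₁ ({⟨4, p2413⟩, ⟨4, p3142⟩} ∪
    (Finset.univ : Finset (Equiv.Perm (Fin (L + 1)))).image fun σ => ⟨L + 1, σ⟩)
  refine ⟨B, ?_⟩
  apply PermClass.ext
  funext n
  ext π
  have h1 : π ∈ (Av (B : Set (Σ k, Equiv.Perm (Fin k)))).carrier n ↔ ∀ β ∈ B, ¬ Contains π β.2 :=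
    Iff.rfl
  rw [h1, ← hB n π]
  have h2 : π ∈ (up (Av (B₁ : Set (Σ k, Equiv.Perm (Fin k)))) L).carrier n ↔
      (∀ β ∈ B₁, ¬ Contains π β.2) ∨ (n ≤ L ∧ π ∈ Sep.carrier n) := Iff.rfl
  rw [h2]
  apply or_congr Iff.rfl
  have h3 : π ∈ Sep.carrier n ↔ ¬ Contains π p2413 ∧ ¬ Contains π p3142 := by
    change (∀ β ∈ ({⟨4, p2413⟩, ⟨4, p3142⟩} : Set (Σ k, Equiv.Perm (Fin k))), ¬ Contains π β.2) ↔ _
    simp only [Set.mem_insert_iff, Set.mem_singleton_iff, forall_eq_or_imp, forall_eq]
  rw [h3]
  constructor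
  · rintro ⟨h4, h5, h6⟩ β hβ
    rw [Finset.mem_union] at hβ
    rcases hβ with hβ | hβ
    · rw [Finset.mem_insert, Finset.mem_singleton] at hβ
      rcases hβ with rfl | rfl
      · exact h5
      · exact h6
    · obtain ⟨σ, -, rfl⟩ := Finset.mem_image.1 hβ
      intro h7
      have h8 : L + 1 ≤ n := le_of_contains (σ := σ) h7
      omega
  · intro h
    refine ⟨?_, h ⟨4, p2413⟩ (by simp), h ⟨4, p3142⟩ (by simp)⟩
    by_contra h4
    push Not at h4
    let g : Fin (L + 1) → Fin n := Fin.castLE h4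
    have hg : StrictMono g := Fin.strictMono_castLE h4
    obtain ⟨σ, hσ⟩ := ModFB.std (fun i => π (g i)) (π.injective.comp hg.injective)
    exact h ⟨L + 1, σ⟩ (Finset.mem_union_right _ (Finset.mem_image_of_mem _ (Finset.mem_univ σ)))
      ⟨g, hg, hσ⟩

/-- the generating functions differ by a polynomial -/
theorem up_genFun (C : PermClass) (L : ℕ) :
    ∃ R : Polynomial ℤ, genFun (up C L) = genFun C + (R : ℤ⟦X⟧) := by
  refine ⟨∑ n ∈ Finset.range (L + 1), Polynomial.monomial n
    ((Nat.card ((up C L).carrier n) : ℤ) - Nat.card (C.carrier n)), ?_⟩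
  ext n
  rw [map_add, Polynomial.coeff_coe, Polynomial.finsetSum_coeff]
  simp only [Polynomial.coeff_monomial, genFun, coeff_mk]
  rw [Finset.sum_ite_eq']
  split_ifs with h
  · ring
  · have h1 : ¬ n ≤ L := fun h2 => h (Finset.mem_range.2 (Nat.lt_succ_of_le h2))
    have h2 : (up C L).carrier n = C.carrier n := by
      ext π
      exact ⟨fun h3 => h3.resolve_right fun h4 => h1 h4.1, Or.inl⟩
    rw [h2, add_zero]

theorem rational_add {f : ℤ⟦X⟧} (h : IsRational f) (R : Polynomial ℤ) :
    IsRational (f + (R : ℤ⟦X⟧)) := by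
  obtain ⟨P, Q, hQ, h1⟩ := h
  refine ⟨P + Q * R, Q, hQ, ?_⟩
  rw [mul_add, h1, Polynomial.coe_add, Polynomial.coe_mul]

/-- every separable permutation is contained in a longer one -/
theorem longer {n : ℕ} (σ : Equiv.Perm (Fin n)) (hσ : σ ∈ Sep.carrier n) :
    ∃ τ : Equiv.Perm (Fin (n + 1)), τ ∈ Sep.carrier (n + 1) ∧ Contains τ σ := by
  let h : Fin (n + 1) → Fin (n + 1) := Fin.lastCases (Fin.last n) fun i => (σ i).castSucc
  have h1 : ∀ i : Fin n, h i.castSucc = (σ i).castSucc := fun i => Fin.lastCases_castSucc ..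
  have h2 : h (Fin.last n) = Fin.last n := Fin.lastCases_last ..
  have hinj : Function.Injective h := by
    intro i j
    refine Fin.lastCases ?_ (fun i => ?_) i <;> refine Fin.lastCases ?_ (fun j => ?_) j
    · intro; rfl
    · intro h3
      rw [h1, h2] at h3
      exact absurd h3.symm (Fin.castSucc_lt_last _).ne
    · intro h3
      rw [h1, h2] at h3
      exact absurd h3 (Fin.castSucc_lt_last _).ne
    · intro h3
      rw [h1, h1] at h3
      rw [σ.injective (Fin.castSucc_injective n h3)]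
  obtain ⟨τ, hτ⟩ := ModFB.std h hinj
  have hlast : ∀ i : Fin (n + 1), i ≠ Fin.last n → τ i < τ (Fin.last n) := by
    intro i
    refine Fin.lastCases ?_ (fun i => ?_) i
    · intro h3; exact absurd rfl h3
    · intro _
      rw [hτ, h1, h2]
      exact Fin.castSucc_lt_last _
  -- a pattern of length four whose last entry is not the largest
  have key : ∀ p : Equiv.Perm (Fin 4), p 3 < p (p.symm 3) → ¬ Contains σ p → ¬ Contains τ p := by
    rintro p hp hn ⟨f, hf, hf'⟩
    have h3 : f 3 ≠ Fin.last n := by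
      intro h4
      have h5 := (hf' _ _).1 hp
      rw [h4] at h5
      have h6 : f (p.symm 3) ≠ Fin.last n := by
        intro h7
        rw [h7] at h5
        exact lt_irrefl _ h5
      exact lt_asymm h5 (hlast _ h6)
    have h4 : ∀ i, f i ≠ Fin.last n := by
      intro i h5
      have h6 : f i ≤ f 3 := hf.monotone (Fin.le_last i)
      rw [h5] at h6
      exact h3 (le_antisymm (Fin.le_last _) h6)
    choose g hg using fun i => Fin.exists_castSucc_eq.2 (h4 i)
    apply hn
    refine ⟨g, fun i j hij => ?_, fun i j => ?_⟩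
    · rw [← Fin.castSucc_lt_castSucc_iff, hg, hg]
      exact hf hij
    · rw [hf' i j, ← hg i, ← hg j, hτ, h1, h1, Fin.castSucc_lt_castSucc_iff]
  refine ⟨τ, ?_, ⟨Fin.castSucc, Fin.strictMono_castSucc, fun i j => ?_⟩⟩
  · intro β hβ
    rcases hβ with rfl | hβ
    · exact key p2413 (by decide) (hσ ⟨4, p2413⟩ (Or.inl rfl))
    · rw [Set.mem_singleton_iff] at hβ
      subst hβ
      exact key p3142 (by decide) (hσ ⟨4, p3142⟩ (Or.inr rfl))
  · rw [hτ, h1, h1, Fin.castSucc_lt_castSucc_iff]

/-- the sum of 1342 and 2431 -/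
def s8 : Equiv.Perm (Fin 8) :=
  ⟨![0, 2, 3, 1, 5, 7, 6, 4], ![0, 3, 1, 2, 7, 4, 6, 5], by decide, by decide⟩

theorem s8_2413 : ∀ a b c d : Fin 8, a < b → b < c → c < d →
    ¬ (s8 c < s8 a ∧ s8 a < s8 d ∧ s8 d < s8 b) := by decide +kernel

theorem s8_3142 : ∀ a b c d : Fin 8, a < b → b < c → c < d →
    ¬ (s8 b < s8 d ∧ s8 d < s8 a ∧ s8 a < s8 c) := by decide +kernel

theorem s8_sep : s8 ∈ Sep.carrier 8 := by
  intro β hβ
  rcases hβ with rfl | hβ
  · rintro ⟨f, hf, hf'⟩
    exact s8_2413 _ _ _ _ (hf (by decide : (0 : Fin 4) < 1)) (hf (by decide : (1 : Fin 4) < 2))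
      (hf (by decide : (2 : Fin 4) < 3)) ⟨(hf' 2 0).1 (by decide), (hf' 0 3).1 (by decide),
        (hf' 3 1).1 (by decide)⟩
  · rw [Set.mem_singleton_iff] at hβ
    subst hβ
    rintro ⟨f, hf, hf'⟩
    exact s8_3142 _ _ _ _ (hf (by decide : (0 : Fin 4) < 1)) (hf (by decide : (1 : Fin 4) < 2))
      (hf (by decide : (2 : Fin 4) < 3)) ⟨(hf' 1 3).1 (by decide), (hf' 3 0).1 (by decide),
        (hf' 0 2).1 (by decide)⟩

theorem s8_2431 : Contains s8 p2431 :=
  ⟨![4, 5, 6, 7], by decide, by decide⟩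

theorem s8_1342 : Contains s8 p1342 :=
  ⟨![0, 1, 2, 3], by decide, by decide⟩

theorem exists_long (m : ℕ) : ∃ τ : Equiv.Perm (Fin (8 + m)), τ ∈ Sep.carrier (8 + m) ∧
    Contains τ s8 := by
  induction m with
  | zero => exact ⟨s8, s8_sep, id, strictMono_id, fun i j => Iff.rfl⟩
  | succ m ih =>
    obtain ⟨τ, h1, h2⟩ := ih
    obtain ⟨ρ, h3, h4⟩ := longer τ h1
    exact ⟨ρ, h3, contains_trans ρ τ s8 h4 h2⟩

/-- **Main theorem.** There is an increasing sequence of finitely based permutation classes between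
`Av(231)` and the separable permutations, all with rational generating functions, such that the
`L`-th class contains all separable permutations of length at most `L` and has exactly
`(4 ^ n + 2) / 3` permutations of length `n + 1` for every `n ≥ L`. No class of the sequence contains
all separable permutations (so that infinitely many of them are different), and every finite set
of separable permutations lies in one of them. -/
theorem result : ∃ C : ℕ → PermClass,
    (∀ L, ∃ B : Finset (Σ k, Equiv.Perm (Fin k)), C L = Av (B : Set (Σ k, Equiv.Perm (Fin k)))) ∧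
    (∀ L n, (Av {⟨3, p231⟩}).carrier n ⊆ (C L).carrier n) ∧
    (∀ L n, (C L).carrier n ⊆ (Av {⟨4, p2413⟩, ⟨4, p3142⟩}).carrier n) ∧
    (∀ L n, (C L).carrier n ⊆ (C (L + 1)).carrier n) ∧
    (∀ L n, n ≤ L → (C L).carrier n = (Av {⟨4, p2413⟩, ⟨4, p3142⟩}).carrier n) ∧
    (∀ L, IsRational (genFun (C L))) ∧
    (∀ L n, L ≤ n → 3 * Nat.card ((C L).carrier (n + 1)) = 4 ^ n + 2) ∧
    (∀ L, ∃ n, (C L).carrier n ≠ (Av {⟨4, p2413⟩, ⟨4, p3142⟩}).carrier n) ∧
    (Set.range C).Infinite ∧
    ∀ F : Finset (Σ k, Equiv.Perm (Fin k)),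
      (∀ φ ∈ F, φ.2 ∈ (Av {⟨4, p2413⟩, ⟨4, p3142⟩}).carrier φ.1) →
      ∃ L, ∀ φ ∈ F, φ.2 ∈ (C L).carrier φ.1 := by
  obtain ⟨C, h1, ⟨B, hB⟩, h3, h4, -, h6, h7⟩ := RationalSeparableClass.result
  have hne : ∀ L, ∃ n, (up C L).carrier n ≠ Sep.carrier n := by
    intro L
    obtain ⟨τ, h8, h9⟩ := exists_long L
    refine ⟨8 + L, fun h10 => ?_⟩
    rw [← h10] at h8
    rcases h8 with h8 | ⟨h8, -⟩
    · rw [h1] at h8
      rcases h8 with h8 | h8
      · exact h8 ⟨4, p2431⟩ (by simp) (contains_trans τ s8 p2431 h9 s8_2431)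
      · exact h8 ⟨4, p1342⟩ (by simp) (contains_trans τ s8 p1342 h9 s8_1342)
    · omega
  have heq : ∀ L n, n ≤ L → (up C L).carrier n = Sep.carrier n := by
    intro L n hn
    ext π
    exact ⟨fun h => h.elim (fun h => h4 n h) fun h => h.2, fun h => Or.inr ⟨hn, h⟩⟩
  refine ⟨up C, ?_, ?_, ?_, ?_, heq, ?_, ?_, hne, ?_, ?_⟩
  · intro L
    rw [hB]
    exact up_basis B L
  · exact fun L n π hπ => Or.inl (h3 n hπ)
  · exact fun L n π hπ => hπ.elim (fun h => h4 n h) fun h => h.2
  · exact fun L n π hπ => hπ.elim Or.inl fun h => Or.inr ⟨h.1.trans (Nat.le_succ L), h.2⟩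
  · intro L
    obtain ⟨R, hR⟩ := up_genFun C L
    rw [hR]
    exact rational_add h6 R
  · intro L n hn
    have h8 : (up C L).carrier (n + 1) = C.carrier (n + 1) := by
      ext π
      exact ⟨fun h => h.resolve_right fun h => by omega, Or.inl⟩
    rw [h8]
    exact h7 n
  · intro hfin
    classical
    have hch : ∀ D : PermClass, ∃ n, D ∈ Set.range (up C) → D.carrier n ≠ Sep.carrier n := by
      intro D
      by_cases hD : D ∈ Set.range (up C)
      · obtain ⟨L, rfl⟩ := hD
        obtain ⟨n, hn⟩ := hne L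
        exact ⟨n, fun _ => hn⟩
      · exact ⟨0, fun h => absurd h hD⟩
    choose N hN using hch
    have h8 : up C (hfin.toFinset.sup N) ∈ Set.range (up C) := ⟨_, rfl⟩
    have h9 : N (up C (hfin.toFinset.sup N)) ≤ hfin.toFinset.sup N :=
      Finset.le_sup (f := N) (hfin.mem_toFinset.2 h8)
    exact hN _ h8 (heq _ _ h9)
  · intro F hF
    refine ⟨F.sup fun φ => φ.1, fun φ hφ => ?_⟩
    have h8 : φ.1 ≤ F.sup fun φ => φ.1 := Finset.le_sup (f := fun φ : (Σ k, Equiv.Perm (Fin k)) => φ.1) hφ
    rw [heq _ _ h8]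
    exact hF φ hφ

end Pool.Agent.Results.MP_163b0f_co.Exhaustion
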